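import Pool.Agent.N483.KM.StmX
import Pool.Agent.N930.KM.Bwi
import Pool.Agent.Y506.PV.Stb
import Pool.Agent.Y211.PV.Iso
import Pool.Agent.Y510.RG.Limw

/-!
From concentration to the functional inequality for weights (part of the project KM of helper483).

By helper73.
-/

set_option autoImplicit false

namespace Pool.Agent.N73.KM

open MeasureTheory Set Filter Topology
open scoped ENNReal InnerProductSpace
open Pool.Agent.R754.KG (E un sl Rv un_img VW_ind EW_ind)
open Pool.Agent.R755.KF (CB)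
open Pool.Agent.Y506.PV (CcW ind LCn)
open Pool.Agent.Y506.RG (EW VW Adm Star)
open Pool.Agent.N483.KM
open Pool.Agent.N930.KM (EW_img VW_img)

theorem int_of_vol {V : Type} [NormedAddCommGroup V] [NormedSpace ℝ V] [FiniteDimensional ℝ V]
    [MeasurableSpace V] [BorelSpace V] (μ : Measure V) [μ.IsAddHaarMeasure] {K : Set V}
    (hc : Convex ℝ K) (h : 0 < μ K) : (interior K).Nonempty := by
  by_contra hn
  rw [hc.interior_nonempty_iff_affineSpan_eq_top] at hn
  have h1 := Measure.addHaar_affineSubspace μ _ hn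
  exact h.ne' (measure_mono_null (subset_affineSpan ℝ K) h1)

theorem St_img {n M m : ℕ} {w : E n → ℝ} {c : ℝ} (hB : CB (BW w M))
    (hF : ∀ F : E n × E M → ℝ, Continuous F →
      ∫ z in BW w M, F z = ∫ x, (∫ u in qb M, F (x, gM w M x • u)) * gM w M x ^ M)
    (e : (E n × E M) ≃ₗ[ℝ] E m) (h : Star c (ind (e '' BW w M))) :
    Star c (fun x => gM w M x ^ M) := by
  intro k T s hs hT f L M' hf hfb h5
  have hTc : Continuous T := T.continuous_of_finiteDimensional
  have e1 : VW (ind (e '' BW w M))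
      (fun z => f ((T ∘ₗ (LinearMap.fst ℝ (E n) (E M)) ∘ₗ e.symm.toLinearMap) z)) =
      VW (fun x => gM w M x ^ M) fun x => f (T x) :=
    VW_img hB hF e (fun x => f (T x)) (hf.diff.continuous.comp hTc)
  have e2 : EW (ind (e '' BW w M))
      (fun z => ‖fderiv ℝ f ((T ∘ₗ (LinearMap.fst ℝ (E n) (E M)) ∘ₗ e.symm.toLinearMap) z)‖) =
      EW (fun x => gM w M x ^ M) fun x => ‖fderiv ℝ f (T x)‖ :=
    EW_img hB hF e (fun x => ‖fderiv ℝ f (T x)‖)
      (((hf.diff.continuous_fderiv one_ne_zero).comp hTc).norm)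
  have h2 := h k (T ∘ₗ (LinearMap.fst ℝ (E n) (E M)) ∘ₗ e.symm.toLinearMap) s hs
    (fun θ hθ => by
      have h3 := hT θ hθ
      rw [← VW_img hB hF e (fun x => ⟪T x, θ⟫_ℝ) (hTc.inner continuous_const)] at h3
      exact h3) f L M' hf hfb (by rw [e1]; exact h5)
  rw [e1, e2] at h2
  exact h2

theorem t_WST (h1 : S_BWC) (h2 : S_BWG) (h3 : S_WMC) : S_WST := by
  classical
  obtain ⟨δ', hδ', H⟩ := h1 (1 / 25) (by norm_num)
  refine ⟨δ', hδ', fun κ' hκ' => ?_⟩
  obtain ⟨κ, hκ, H⟩ := H κ' hκ'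
  obtain ⟨c, hc, Hs⟩ := Pool.Agent.Y506.PV.stb Pool.Agent.Y211.PV.iso κ hκ
  refine ⟨c, hc, fun n w hw hcc => ?_⟩
  obtain ⟨hadm, -, hlim, -, -⟩ := h3 n w hw
  set W : ℕ → E n → ℝ := fun M => if Adm (fun x => gM w M x ^ M) then fun x => gM w M x ^ M else w
    with hW
  have hWe : ∀ᶠ M : ℕ in atTop, W M = fun x => gM w M x ^ M := by
    filter_upwards [hadm] with M hM
    simp only [hW]
    rw [if_pos hM]
  refine Pool.Agent.Y510.RG.limw n c w W hc.le hw.adm.int hw.adm.pos ?_ ?_ ?_
  · intro M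
    by_cases hM : Adm (fun x => gM w M x ^ M)
    · have : W M = fun x => gM w M x ^ M := by simp only [hW]; rw [if_pos hM]
      rw [this]
      exact hM.int
    · have : W M = w := by simp only [hW]; rw [if_neg hM]
      rw [this]
      exact hw.adm.int
  · refine hlim.congr' ?_
    filter_upwards [hWe] with M hM
    rw [hM]
  · filter_upwards [hWe, h2 n w hw, H n w hw hcc] with M hM hB hcM
    rw [hM]
    obtain ⟨e⟩ : Nonempty ((E n × E M) ≃ₗ[ℝ] E (n + M)) := by
      apply FiniteDimensional.nonempty_linearEquiv_of_finrank_eq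
      simp [Module.finrank_prod]
    refine St_img hB.1 hB.2 e (Hs (n + M) (e '' BW w M) ?_ ?_ ?_ (hcM _ e))
    · exact hB.1.comp.image e.toLinearMap.continuous_of_finiteDimensional
    · exact hB.1.conv.linear_image e.toLinearMap
    · have hv0 : (volume : Measure (E n × E M)).IsAddHaarMeasure :=
        inferInstanceAs (Measure.prod (volume : Measure (E n)) (volume : Measure (E M))).IsAddHaarMeasure
      obtain ⟨x, hx⟩ := int_of_vol volume hB.1.conv hB.1.pos
      let e' : (E n × E M) ≃L[ℝ] E (n + M) := e.toContinuousLinearEquiv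
      have h4 : IsOpen (e' '' interior (BW w M)) :=
        e'.toHomeomorph.isOpenMap _ isOpen_interior
      have h5 : e' '' interior (BW w M) ⊆ e '' BW w M := image_mono interior_subset
      exact ⟨e' x, interior_maximal h5 h4 ⟨x, hx, rfl⟩⟩

end Pool.Agent.N73.KM
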