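import Pool.Agent.N483.KM.StmZ
import Pool.Agent.N930.KM.Bwi
import Pool.Agent.R755.KF.W1
import Pool.Agent.Y510.RG.Limw

/-!
Weak Poincaré inequalities for weights from the concentration (part of the project KM of helper483).

By helper73.
-/

set_option autoImplicit false

namespace Pool.Agent.N73.KM

open MeasureTheory Set Filter Topology
open scoped ENNReal InnerProductSpace
open Pool.Agent.R754.KG (E un sl Rv un_img VW_ind EW_ind)
open Pool.Agent.R755.KF (CB BL KW)
open Pool.Agent.Y506.PV (CcW ind LCn)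
open Pool.Agent.Y506.RG (EW VW Adm)
open Pool.Agent.N483.KM
open Pool.Agent.N930.KM (EW_img VW_img)
open Pool.Agent.Y510.RG (ka KK ka_nonneg KK_nonneg conv EW_close VW_close)

/-- the weak Poincaré inequality for all linear images of the measure with density `w` -/
def WKc {n : ℕ} (A0 δ : ℝ) (w : E n → ℝ) : Prop := ∀ (k : ℕ) (P : E n →ₗ[ℝ] E k) (s : ℝ),
  0 < s → (∀ θ : E k, ‖θ‖ = 1 → VW w (fun x => ⟪P x, θ⟫_ℝ) ≤ s) →
  ∀ (v : E k → ℝ) (C : ℝ), ContDiff ℝ 1 v → (∀ y, |v y| ≤ 1) → (∀ y, ‖fderiv ℝ v y‖ ≤ C) →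
  VW w (fun x => v (P x)) ≤ δ + A0 * s * EW w fun x => ‖fderiv ℝ v (P x)‖ ^ 2

theorem limk {n : ℕ} {A0 δ : ℝ} {w : E n → ℝ} {W : ℕ → E n → ℝ}
    (hw : Integrable (fun x => (1 + ‖x‖ ^ 2) * w x)) (hm : 0 < ∫ x, w x)
    (hW : ∀ j, Integrable (fun x => (1 + ‖x‖ ^ 2) * W j x))
    (hlim : Tendsto (fun j => ∫ x, (1 + ‖x‖ ^ 2) * |W j x - w x|) atTop (𝓝 0))
    (hev : ∀ᶠ j in atTop, WKc A0 δ (W j)) : WKc A0 δ w := by
  intro k T s hs hvar f L hfd hf2 hgrad
  obtain ⟨A, hA⟩ : ∃ A : ℝ, A = ‖T.toContinuousLinearMap‖ := ⟨_, rfl⟩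
  have hA0 : 0 ≤ A := by rw [hA]; exact norm_nonneg _
  have hTc : Continuous T := T.continuous_of_finiteDimensional
  have hT : ∀ x, ‖T x‖ ≤ A * ‖x‖ := fun x => by
    rw [hA]; exact T.toContinuousLinearMap.le_opNorm x
  have hx1 : ∀ x : E n, ‖x‖ ≤ 1 + ‖x‖ ^ 2 := fun x => by nlinarith [sq_nonneg (‖x‖ - 1)]
  have hx2 : ∀ x : E n, 1 ≤ 1 + ‖x‖ ^ 2 := fun x => by nlinarith [sq_nonneg ‖x‖]
  have hL : 0 ≤ L := (norm_nonneg _).trans (hgrad 0)
  -- the masses
  have hmj : Tendsto (fun j => ∫ x, W j x) atTop (𝓝 (∫ x, w x)) := by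
    rw [tendsto_iff_norm_sub_tendsto_zero]
    refine squeeze_zero (fun j => norm_nonneg _) (fun j => ?_) hlim
    have h3 := conv (v := fun _ => (1:ℝ)) (B := 1) hw (hW j) continuous_const (fun x => by
      rw [abs_one, one_mul]; exact hx2 x)
    simpa using h3
  have hmpos : ∀ᶠ j in atTop, 0 < ∫ x, W j x := hmj.eventually (lt_mem_nhds hm)
  have hka : Tendsto (fun j => ka w (W j)) atTop (𝓝 0) := by
    unfold ka
    have h1 := (hlim.div hmj hm.ne').mul_const (1 + KK w)
    rw [zero_div, zero_mul] at h1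
    exact h1
  -- the function `f ∘ T`
  have hfc : Continuous (fun x => f (T x)) := hfd.continuous.comp hTc
  have hfb : ∀ x, |f (T x)| ≤ 1 * (1 + ‖x‖ ^ 2) := fun x => by
    have := hf2 (T x); have := hx2 x; linarith
  have hfb2 : ∀ x, |f (T x) ^ 2| ≤ 1 * (1 + ‖x‖ ^ 2) := fun x => by
    have h1 := hf2 (T x)
    have h2 := hx2 x
    rw [abs_pow]
    have h3 := abs_nonneg (f (T x))
    nlinarith
  have hVf : Tendsto (fun j => VW (W j) fun x => f (T x)) atTop (𝓝 (VW w fun x => f (T x))) := by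
    rw [tendsto_iff_norm_sub_tendsto_zero]
    have h1 : Tendsto (fun j => 1 * ka w (W j) + 1 * ka w (W j) *
        (2 * (1 * KK w) + 1 * ka w (W j))) atTop (𝓝 0) := by
      have := (hka.const_mul 1).add ((hka.const_mul 1).mul
        ((hka.const_mul 1).const_add (2 * (1 * KK w))))
      simpa using this
    refine squeeze_zero' (Eventually.of_forall fun j => norm_nonneg _) ?_ h1
    filter_upwards [hmpos] with j hj
    exact VW_close hw (hW j) hm hj hfc hfb hfb2
  -- the gradient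
  have hgc : Continuous (fun x => ‖fderiv ℝ f (T x)‖ ^ 2) :=
    (((hfd.continuous_fderiv (by norm_num)).comp hTc).norm).pow 2
  have hgb : ∀ x, |‖fderiv ℝ f (T x)‖ ^ 2| ≤ L ^ 2 * (1 + ‖x‖ ^ 2) := fun x => by
    rw [abs_pow, abs_norm]
    have h1 := pow_le_pow_left₀ (norm_nonneg _) (hgrad (T x)) 2
    have h2 := hx2 x
    have h3 := sq_nonneg L
    nlinarith
  have hEg : Tendsto (fun j => EW (W j) fun x => ‖fderiv ℝ f (T x)‖ ^ 2) atTop
      (𝓝 (EW w fun x => ‖fderiv ℝ f (T x)‖ ^ 2)) := by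
    rw [tendsto_iff_norm_sub_tendsto_zero]
    have h1 : Tendsto (fun j => L ^ 2 * ka w (W j)) atTop (𝓝 0) := by
      simpa using hka.const_mul (L ^ 2)
    refine squeeze_zero' (Eventually.of_forall fun j => norm_nonneg _) ?_ h1
    filter_upwards [hmpos] with j hj
    exact EW_close hw (hW j) hm hj hgc hgb
  -- the variances of the linear forms
  obtain ⟨e, he⟩ : ∃ e : ℕ → ℝ, e = fun j => A ^ 2 * ka w (W j) + A * ka w (W j) *
      (2 * (A * KK w) + A * ka w (W j)) := ⟨_, rfl⟩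
  have he0 : Tendsto e atTop (𝓝 0) := by
    rw [he]
    have := (hka.const_mul (A ^ 2)).add ((hka.const_mul A).mul
        ((hka.const_mul A).const_add (2 * (A * KK w))))
    simpa using this
  have hmain : ∀ᶠ j in atTop, VW (W j) (fun x => f (T x)) ≤
      δ + A0 * (s + e j) * EW (W j) fun x => ‖fderiv ℝ f (T x)‖ ^ 2 := by
    filter_upwards [hmpos, hev] with j hj hst
    have hk0 := ka_nonneg hm hj
    have hK0 := KK_nonneg hm
    have hej : 0 ≤ e j := by
      rw [he]
      positivity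
    refine hst k T (s + e j) (by linarith) ?_ f L hfd hf2 hgrad
    intro θ hθ
    have hb1 : ∀ x, |⟪T x, θ⟫_ℝ| ≤ A * (1 + ‖x‖ ^ 2) := fun x => by
      have h1 := abs_real_inner_le_norm (T x) θ
      rw [hθ, mul_one] at h1
      have h2 := hT x
      have h3 := mul_le_mul_of_nonneg_left (hx1 x) hA0
      linarith
    have hb2 : ∀ x, |⟪T x, θ⟫_ℝ ^ 2| ≤ A ^ 2 * (1 + ‖x‖ ^ 2) := fun x => by
      have h1 := abs_real_inner_le_norm (T x) θ
      rw [hθ, mul_one] at h1
      have h2 := pow_le_pow_left₀ (abs_nonneg _) (h1.trans (hT x)) 2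
      rw [abs_pow]
      have h3 := sq_nonneg A
      nlinarith
    have hc1 : Continuous (fun x => ⟪T x, θ⟫_ℝ) := hTc.inner continuous_const
    have h1 := VW_close hw (hW j) hm hj hc1 hb1 hb2
    have h2 := hvar θ hθ
    have h3 := (abs_le.1 h1).2
    rw [he]
    linarith
  refine le_of_tendsto_of_tendsto hVf ?_ hmain
  have h2 : Tendsto (fun j => s + e j) atTop (𝓝 s) := by simpa using he0.const_add s
  exact ((h2.const_mul A0).mul hEg).const_add δ

theorem K_img {n M m : ℕ} {w : E n → ℝ} {A0 δ : ℝ} (hB : CB (BW w M))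
    (hF : ∀ F : E n × E M → ℝ, Continuous F →
      ∫ z in BW w M, F z = ∫ x, (∫ u in qb M, F (x, gM w M x • u)) * gM w M x ^ M)
    (e : (E n × E M) ≃ₗ[ℝ] E m) (h : KW A0 δ (e '' BW w M)) :
    WKc A0 δ (fun x => gM w M x ^ M) := by
  intro k P s hs hP v C hv hv1 hvC
  have hme : MeasurableSet (e '' BW w M) := by
    let e' : (E n × E M) ≃L[ℝ] E m := e.toContinuousLinearEquiv
    exact e'.toHomeomorph.measurableEmbedding.measurableSet_image.2 hB.comp.measurableSet
  have hPc : Continuous P := P.continuous_of_finiteDimensional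
  have e1 : ∀ f : E n → ℝ, Continuous f →
      (∫ x, f ((LinearMap.fst ℝ (E n) (E M) ∘ₗ e.symm.toLinearMap) x) ∂(un (e '' BW w M))) =
      EW (fun x => gM w M x ^ M) f := by
    intro f hf
    rw [← EW_img hB hF e f hf, EW_ind hme]
    rfl
  have h2 := h k (P ∘ₗ (LinearMap.fst ℝ (E n) (E M)) ∘ₗ e.symm.toLinearMap) s hs
    (fun θ hθ => by
      have h3 := hP θ hθ
      unfold VW at h3
      rw [← e1 (fun x => ⟪P x, θ⟫_ℝ) (hPc.inner continuous_const),
        ← e1 (fun x => ⟪P x, θ⟫_ℝ ^ 2) ((hPc.inner continuous_const).pow 2)] at h3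
      exact h3) (max 1 C) v
    ⟨hv, fun y => (hv1 y).trans (le_max_left _ _), fun y => (hvC y).trans (le_max_right _ _)⟩ hv1
  unfold VW
  rw [← e1 (fun x => v (P x)) (hv.continuous.comp hPc),
    ← e1 (fun x => v (P x) ^ 2) ((hv.continuous.comp hPc).pow 2),
    ← e1 (fun x => ‖fderiv ℝ v (P x)‖ ^ 2)
      ((((hv.continuous_fderiv one_ne_zero).comp hPc).norm).pow 2)]
  exact h2

theorem int_of_vol' {V : Type} [NormedAddCommGroup V] [NormedSpace ℝ V] [FiniteDimensional ℝ V]
    [MeasurableSpace V] [BorelSpace V] (μ : Measure V) [μ.IsAddHaarMeasure] {K : Set V}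
    (hc : Convex ℝ K) (h : 0 < μ K) : (interior K).Nonempty := by
  by_contra hn
  rw [hc.interior_nonempty_iff_affineSpan_eq_top] at hn
  have h1 := Measure.addHaar_affineSubspace μ _ hn
  exact h.ne' (measure_mono_null (subset_affineSpan ℝ K) h1)

theorem t_WKM (h1 : S_BWC) (h2 : S_BWG) (h3 : S_WMC) : S_WKM := by
  classical
  intro κ hκ
  have key : ∀ δ : ℝ, ∃ A0 : ℝ, 0 < δ → ∀ (n : ℕ) (w : E n → ℝ), LW w →
      (∀ δ, 0 < δ → CcW (κ δ) δ w) → WKc A0 δ w := by
    intro δ
    by_cases hδ : 0 < δ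
    · obtain ⟨δ', hδ', H⟩ := h1 (δ / 17) (by positivity)
      obtain ⟨κ₁, hκ₁, H⟩ := H (κ δ') (hκ δ' hδ')
      obtain ⟨A0, hA0, Hs⟩ := Pool.Agent.R755.KF.kw_of_cc κ₁ (δ / 17) hκ₁ (by positivity)
      refine ⟨A0, fun _ n w hw hcc => ?_⟩
      obtain ⟨hadm, -, hlim, -, -⟩ := h3 n w hw
      set W : ℕ → E n → ℝ := fun M =>
        if Adm (fun x => gM w M x ^ M) then fun x => gM w M x ^ M else w with hW
      have hWe : ∀ᶠ M : ℕ in atTop, W M = fun x => gM w M x ^ M := by
        filter_upwards [hadm] with M hM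
        simp only [hW]
        rw [if_pos hM]
      refine limk (W := W) hw.adm.int hw.adm.pos ?_ ?_ ?_
      · intro M
        by_cases hM : Adm (fun x => gM w M x ^ M)
        · have : W M = fun x => gM w M x ^ M := by simp only [hW]; rw [if_pos hM]
          rw [this]
          exact hM.int
        · have : W M = w := by simp only [hW]; rw [if_neg hM]
          rw [this]
          exact hw.adm.int
      · refine hlim.congr' ?_
        filter_upwards [hWe] with M hM
        rw [hM]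
      · filter_upwards [hWe, h2 n w hw, H n w hw (hcc δ' hδ')] with M hM hB hcM
        rw [hM]
        obtain ⟨e⟩ : Nonempty ((E n × E M) ≃ₗ[ℝ] E (n + M)) := by
          apply FiniteDimensional.nonempty_linearEquiv_of_finrank_eq
          simp [Module.finrank_prod]
        have hKW := Hs (n + M) (e '' BW w M) ?_ ?_ ?_ (hcM _ e)
        · rw [mul_div_cancel₀ _ (by norm_num : (17 : ℝ) ≠ 0)] at hKW
          exact K_img hB.1 hB.2 e hKW
        · exact hB.1.comp.image e.toLinearMap.continuous_of_finiteDimensional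
        · exact hB.1.conv.linear_image e.toLinearMap
        · have hv0 : (volume : Measure (E n × E M)).IsAddHaarMeasure :=
            inferInstanceAs
              (Measure.prod (volume : Measure (E n)) (volume : Measure (E M))).IsAddHaarMeasure
          obtain ⟨x, hx⟩ := int_of_vol' volume hB.1.conv hB.1.pos
          let e' : (E n × E M) ≃L[ℝ] E (n + M) := e.toContinuousLinearEquiv
          have h4 : IsOpen (e' '' interior (BW w M)) :=
            e'.toHomeomorph.isOpenMap _ isOpen_interior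
          have h5 : e' '' interior (BW w M) ⊆ e '' BW w M := image_mono interior_subset
          exact ⟨e' x, interior_maximal h5 h4 ⟨x, hx, rfl⟩⟩
    · exact ⟨0, fun h => absurd h hδ⟩
  choose A hA using key
  exact ⟨A, fun n w hw hcc δ hδ k P s hs hP v C hv hv1 hvC =>
    hA δ hδ n w hw hcc k P s hs hP v C hv hv1 hvC⟩

end Pool.Agent.N73.KM
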